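import Pool.Agent.H.MP_ace873_an.Main

namespace Pool.Agent.Results.MP_ace873_an.NotAttaining

open Filter Topology MeasureTheory Pool.Agent.H.MP_ace873_an

def Polyhedral (Y : Type) [NormedAddCommGroup Y] [NormedSpace ℝ Y] : Prop :=
  ∀ V : Submodule ℝ Y, FiniteDimensional ℝ V →
    ∃ S : Finset V, Metric.closedBall (0 : V) 1 = convexHull ℝ (S : Set V)

def Optimal {Y : Type} [NormedAddCommGroup Y] [NormedSpace ℝ Y] (μ : Measure ℝ) (f : ℝ → Y) : Prop :=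
  ∃ (g : ℕ → ℝ → ℝ) (y : ℕ → Y), (∀ i, Integrable (g i) μ) ∧
    (∀ᵐ ω ∂μ, Tendsto (fun n => ∑ i ∈ Finset.range n, g i ω • y i) atTop (𝓝 (f ω))) ∧
    HasSum (fun i => (∫ ω, |g i ω| ∂μ) * ‖y i‖) (∫ ω, ‖f ω‖ ∂μ)

theorem result : ∃ (Y : Type) (_ : NormedAddCommGroup Y) (_ : NormedSpace ℝ Y) (_ : CompleteSpace Y),
    Polyhedral Y ∧ ∃ f : ℝ → Y, Integrable f (volume.restrict (Set.Icc 0 1)) ∧
      ¬ Optimal (volume.restrict (Set.Icc 0 1)) f := by
  have : IsProbabilityMeasure (volume.restrict (Set.Icc (0 : ℝ) 1)) := ⟨by simp⟩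
  refine ⟨Y, inferInstance, inferInstance, inferInstance, fun V h => polyY V, f,
    Integrable.of_bound f_meas.aestronglyMeasurable 1
      (Eventually.of_forall fun ω => (f_norm ω).le), ?_⟩
  rintro ⟨g, y, h1, h2, h3⟩
  exact main _ g y h1 h2 h3

end Pool.Agent.Results.MP_ace873_an.NotAttaining
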